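import Pool.Agent.Y461.KM.Stm

/-!
# Project KM: polynomials invariant under two reflections with product of infinite order
-/

set_option autoImplicit false

namespace Pool.Agent.Y348.KM

open MvPolynomial

variable {σ : Type} [Fintype σ]

omit [Fintype σ] in
/-- Polynomials along a path whose coordinates have a simple pole at `0`. -/
theorem laurent (f : MvPolynomial σ ℚ) (y : ℝ → σ → ℝ) (A : σ → Polynomial ℝ)
    (hy : ∀ s, s ≠ 0 → ∀ i, y s i * s = (A i).eval s) :
    ∃ (N : ℕ) (P : Polynomial ℝ), ∀ s, s ≠ 0 → aeval (y s) f * s ^ N = P.eval s := by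
  induction f using MvPolynomial.induction_on with
  | C a =>
    refine ⟨0, Polynomial.C (a : ℝ), fun s _ => ?_⟩
    simp
  | add p q hp hq =>
    obtain ⟨N, P, hP⟩ := hp
    obtain ⟨M, Q, hQ⟩ := hq
    refine ⟨N + M, P * Polynomial.X ^ M + Q * Polynomial.X ^ N, fun s hs => ?_⟩
    rw [map_add, Polynomial.eval_add, Polynomial.eval_mul, Polynomial.eval_mul, ← hP s hs,
      ← hQ s hs, Polynomial.eval_pow, Polynomial.eval_pow, Polynomial.eval_X]
    ring
  | mul_X p i hp =>
    obtain ⟨N, P, hP⟩ := hp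
    refine ⟨N + 1, P * A i, fun s hs => ?_⟩
    rw [map_mul, aeval_X, Polynomial.eval_mul, ← hP s hs, ← hy s hs i]
    ring

omit [Fintype σ] in
theorem const_of (f : MvPolynomial σ ℚ) (y : ℝ → σ → ℝ) (A : σ → Polynomial ℝ)
    (hy : ∀ s, s ≠ 0 → ∀ i, y s i * s = (A i).eval s) (c : ℝ) (Z : ℕ → ℝ)
    (hZ : Function.Injective Z) (h0 : ∀ k, Z k ≠ 0) (hc : ∀ k, aeval (y (Z k)) f = c) :
    ∀ s, s ≠ 0 → aeval (y s) f = c := by
  obtain ⟨N, P, hP⟩ := laurent f y A hy
  have hQ : P - Polynomial.C c * Polynomial.X ^ N = 0 := by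
    refine Polynomial.eq_zero_of_infinite_isRoot _ ((Set.infinite_range_of_injective hZ).mono ?_)
    rintro _ ⟨k, rfl⟩
    simp only [Set.mem_ofPred_eq, Polynomial.IsRoot, Polynomial.eval_sub, Polynomial.eval_mul,
      Polynomial.eval_C, Polynomial.eval_pow, Polynomial.eval_X]
    rw [← hP _ (h0 k), hc k, sub_self]
  intro s hs
  have h1 := hP s hs
  rw [sub_eq_zero.mp hQ] at h1
  simp only [Polynomial.eval_mul, Polynomial.eval_C, Polynomial.eval_pow,
    Polynomial.eval_X] at h1
  exact mul_right_cancel₀ (pow_ne_zero N hs) h1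

theorem deriv_aeval (f : MvPolynomial σ ℚ) (y : ℝ → σ → ℝ) (y' : σ → ℝ) (s0 : ℝ)
    (h : ∀ i, HasDerivAt (fun s => y s i) (y' i) s0) :
    HasDerivAt (fun s => (aeval (y s) f : ℝ))
      (∑ i, y' i * aeval (y s0) (pderiv i f)) s0 := by
  induction f using MvPolynomial.induction_on with
  | C a =>
    simp only [algHom_C, pderiv_C, map_zero, mul_zero, Finset.sum_const_zero]
    exact hasDerivAt_const _ _
  | add p q hp hq =>
    have h2 : (fun s => (aeval (y s) (p + q) : ℝ)) =
        (fun s => (aeval (y s) p : ℝ)) + fun s => (aeval (y s) q : ℝ) := by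
      funext s
      rw [map_add]
      rfl
    have e : ∑ i, y' i * (aeval (y s0) (pderiv i (p + q)) : ℝ) =
        ∑ i, y' i * (aeval (y s0) (pderiv i p) : ℝ) +
          ∑ i, y' i * (aeval (y s0) (pderiv i q) : ℝ) := by
      simp only [map_add, mul_add, Finset.sum_add_distrib]
    rw [h2, e]
    exact hp.add hq
  | mul_X p j hp =>
    have h1 := hp.mul (h j)
    have h2 : (fun s => (aeval (y s) (p * X j) : ℝ)) =
        (fun s => (aeval (y s) p : ℝ)) * fun s => y s j := by
      funext s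
      rw [map_mul, aeval_X]
      rfl
    have e : ∑ i, y' i * (aeval (y s0) (pderiv i (p * X j)) : ℝ) =
        (∑ i, y' i * (aeval (y s0) (pderiv i p) : ℝ)) * y s0 j + aeval (y s0) p * y' j := by
      classical
      simp only [pderiv_mul, pderiv_X, map_add, map_mul, aeval_X, mul_add,
        Finset.sum_add_distrib]
      congr 1
      · rw [Finset.sum_mul]
        refine Finset.sum_congr rfl fun i _ => ?_
        ring
      · rw [Finset.sum_eq_single j]
        · simp
          ring
        · intro i _ hij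
          rw [Pi.single_eq_of_ne (Ne.symm hij)]
          simp
        · intro hj
          exact absurd (Finset.mem_univ j) hj
    rw [h2, e]
    exact h1

/-- A path in the plane `x + span(v, u)`. -/
theorem path (f : MvPolynomial σ ℚ) (x v u : σ → ℝ) (p q : ℝ → ℝ) (A B : Polynomial ℝ)
    (hA : ∀ s, s ≠ 0 → p s * s = A.eval s) (hB : ∀ s, s ≠ 0 → q s * s = B.eval s)
    (p' q' : ℝ) (hp : HasDerivAt p p' 1) (hq : HasDerivAt q q' 1) (hp1 : p 1 = 0) (hq1 : q 1 = 0)
    (Z : ℕ → ℝ) (hZ : Function.Injective Z) (h0 : ∀ k, Z k ≠ 0) (hZ0 : Z 0 = 1)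
    (hc : ∀ k, (aeval (fun i => x i + p (Z (k + 1)) * v i + q (Z (k + 1)) * u i) f : ℝ) =
      aeval (fun i => x i + p (Z k) * v i + q (Z k) * u i) f) :
    p' * ∑ i, v i * aeval x (pderiv i f) + q' * ∑ i, u i * aeval x (pderiv i f) = 0 := by
  have hx : (fun i => x i + p 1 * v i + q 1 * u i) = x := by
    funext i
    rw [hp1, hq1]
    ring
  have hc' : ∀ k, (aeval (fun i => x i + p (Z k) * v i + q (Z k) * u i) f : ℝ) = aeval x f := by
    intro k
    induction k with
    | zero => rw [hZ0, hx]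
    | succ k ih => rw [hc, ih]
  have h1 := const_of f (fun s i => x i + p s * v i + q s * u i)
    (fun i => Polynomial.C (x i) * Polynomial.X + A * Polynomial.C (v i) +
      B * Polynomial.C (u i)) (by
      intro s hs i
      simp only [Polynomial.eval_add, Polynomial.eval_mul, Polynomial.eval_C, Polynomial.eval_X]
      rw [← hA s hs, ← hB s hs]
      ring) (aeval x f) Z hZ h0 hc'
  have h2 := deriv_aeval f (fun s i => x i + p s * v i + q s * u i)
    (fun i => p' * v i + q' * u i) 1 (by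
      intro i
      have h3 := ((hp.mul_const (v i)).const_add (x i)).add (hq.mul_const (u i))
      exact h3)
  simp only [hx] at h2
  have h3 : HasDerivAt (fun s => (aeval (fun i => x i + p s * v i + q s * u i) f : ℝ)) 0 1 := by
    refine (hasDerivAt_const (1 : ℝ) (aeval x f : ℝ)).congr_of_eventuallyEq ?_
    filter_upwards [isOpen_ne.mem_nhds (show (1 : ℝ) ≠ 0 from one_ne_zero)] with s hs
    exact h1 s hs
  have h4 := h2.unique h3
  rw [← h4, Finset.mul_sum, Finset.mul_sum, ← Finset.sum_add_distrib]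
  refine Finset.sum_congr rfl fun i _ => ?_
  ring

/-- The hyperbolic case. -/
theorem hyperbolic (f : MvPolynomial σ ℚ) (x v u : σ → ℝ) (a b c g : ℝ)
    (hτ : ∀ p q p1 q1 : ℝ, q1 = -q - c - g * p → p1 = -p - a - b * q1 →
      (aeval (fun i => x i + p1 * v i + q1 * u i) f : ℝ) =
        aeval (fun i => x i + p * v i + q * u i) f)
    (hD : 0 < b * g * (b * g - 4)) :
    b * c * ∑ i, v i * aeval x (pderiv i f) - g * a * ∑ i, u i * aeval x (pderiv i f) = 0 := by
  set Dv := ∑ i, v i * (aeval x (pderiv i f) : ℝ) with hDv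
  set Du := ∑ i, u i * (aeval x (pderiv i f) : ℝ) with hDu
  obtain ⟨w, hw⟩ : ∃ w : ℝ, w ^ 2 = b * g * (b * g - 4) := ⟨√(b * g * (b * g - 4)),
    Real.sq_sqrt hD.le⟩
  obtain ⟨μ, ν, h1, h2⟩ : ∃ μ ν : ℝ, μ * ν = 1 ∧ μ + ν = b * g - 2 :=
    ⟨(b * g - 2 + w) / 2, (b * g - 2 - w) / 2, by linear_combination (-1 / 4) * hw, by ring⟩
  have hμ0 : μ ≠ 0 := by
    intro h
    rw [h, zero_mul] at h1
    exact zero_ne_one h1
  have hδ2 : (μ - ν) ^ 2 = b * g * (b * g - 4) := by
    linear_combination (μ + ν + (b * g - 2)) * h2 - 4 * h1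
  have hδ : (μ - ν) ^ 2 ≠ 0 := by
    rw [hδ2]
    exact hD.ne'
  have hμ1 : |μ| ≠ 1 := by
    intro h
    have h3 : μ ^ 2 = 1 := by rw [← sq_abs, h, one_pow]
    apply hδ
    have h4 : ν = μ := by
      have : μ * ν = μ * μ := by rw [h1, ← sq, h3]
      exact mul_left_cancel₀ hμ0 this
    rw [h4, sub_self]
    norm_num
  obtain ⟨r, hr⟩ : ∃ r : ℝ, r * (μ - ν) ^ 2 = 1 := ⟨((μ - ν) ^ 2)⁻¹, inv_mul_cancel₀ hδ⟩
  have hZ1 : Function.Injective (fun k : ℕ => μ ^ k) := by
    intro k l h
    have h' : |μ| ^ k = |μ| ^ l := by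
      have : μ ^ k = μ ^ l := h
      rw [← abs_pow, ← abs_pow, this]
    exact pow_right_injective₀ (abs_pos.mpr hμ0) hμ1 h'
  have hZ2 : ∀ k : ℕ, (fun k : ℕ => μ ^ k) k ≠ 0 := fun k => pow_ne_zero k hμ0
  have hev : ∀ (P1 P2 s : ℝ), s ≠ 0 → (P1 * (s - 1) + P2 * (s⁻¹ - 1)) * s =
      (Polynomial.C P1 * (Polynomial.X ^ 2 - Polynomial.X) +
        Polynomial.C P2 * (1 - Polynomial.X)).eval s := by
    intro P1 P2 s hs
    simp only [Polynomial.eval_add, Polynomial.eval_sub, Polynomial.eval_mul,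
      Polynomial.eval_C, Polynomial.eval_X, Polynomial.eval_pow, Polynomial.eval_one]
    linear_combination P2 * inv_mul_cancel₀ hs
  have hder : ∀ (P1 P2 : ℝ), HasDerivAt (fun s : ℝ => P1 * (s - 1) + P2 * (s⁻¹ - 1))
      (P1 - P2) 1 := by
    intro P1 P2
    have e1 := ((hasDerivAt_id (1 : ℝ)).sub_const 1).const_mul P1
    have e2 := ((hasDerivAt_inv (one_ne_zero : (1 : ℝ) ≠ 0)).sub_const 1).const_mul P2
    refine (e1.add e2).congr_deriv ?_
    norm_num
    ring
  have h := path f x v u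
    (fun s => (b * (-(g * a) + (1 + μ) * c) * r) * (s - 1) +
      (-(b * (g * a - (1 + ν) * c) * r)) * (s⁻¹ - 1))
    (fun s => (-(g * (b * c - (1 + ν) * a) * r)) * (s - 1) +
      (g * ((1 + μ) * a - b * c) * r) * (s⁻¹ - 1))
    _ _ (hev _ _) (hev _ _) _ _ (hder _ _) (hder _ _) (by norm_num) (by norm_num)
    (fun k : ℕ => μ ^ k) hZ1 hZ2 (pow_zero μ)
    (by
      intro k
      have hi : (μ ^ (k + 1))⁻¹ = ν * (μ ^ k)⁻¹ := by
        have : μ⁻¹ = ν := by
          field_simp
          linear_combination -h1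
        rw [pow_succ, mul_inv, this, mul_comm]
      refine hτ _ _ _ _ ?_ ?_
      · show _ * (μ ^ (k + 1) - 1) + _ * ((μ ^ (k + 1))⁻¹ - 1) = _
        rw [hi, pow_succ]
        generalize μ ^ k = s
        generalize s⁻¹ = t
        linear_combination s * (g * r * a * h1 + g * r * a * h2) +
          t * (g * r * a * h1 + g * r * a * h2) +
          ((-2 * g * r * a - g * b * r * c) * h2 - c * hr + c * r * (μ + ν + (b * g - 2)) * h2
            - 4 * c * r * h1)
      · show _ * (μ ^ (k + 1) - 1) + _ * ((μ ^ (k + 1))⁻¹ - 1) = _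
        rw [hi, pow_succ]
        generalize μ ^ k = s
        generalize s⁻¹ = t
        linear_combination s * (b * r * g * a * h1 + b * r * c * μ * h2 - b * r * c * h1) +
          t * (b * r * g * a * h1 + b * r * c * ν * h2 - b * r * c * h1) +
          ((-2 * b * r * c - b * g * r * a) * h2 - a * hr + a * r * (μ + ν + (b * g - 2)) * h2
            - 4 * a * r * h1))
  linear_combination (μ - ν) * h - (b * c * Dv - g * a * Du) * hr

/-- Main computation at a point. -/
theorem core (f : MvPolynomial σ ℚ) (x v u : σ → ℝ) (a b c g : ℝ)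
    (hτ : ∀ p q p1 q1 : ℝ, q1 = -q - c - g * p → p1 = -p - a - b * q1 →
      (aeval (fun i => x i + p1 * v i + q1 * u i) f : ℝ) =
        aeval (fun i => x i + p * v i + q * u i) f)
    (hcase : b * g < 0 ∨ 4 ≤ b * g ∨ (b = 0 ∧ g ≠ 0) ∨ (b ≠ 0 ∧ g = 0)) :
    b * c * ∑ i, v i * aeval x (pderiv i f) - g * a * ∑ i, u i * aeval x (pderiv i f) = 0 := by
  set Dv := ∑ i, v i * (aeval x (pderiv i f) : ℝ) with hDv
  set Du := ∑ i, u i * (aeval x (pderiv i f) : ℝ) with hDu
  have hZ1 : Function.Injective (fun k : ℕ => (k : ℝ) + 1) := by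
    intro k l h
    have h' : (k : ℝ) + 1 = l + 1 := h
    exact_mod_cast add_right_cancel h'
  have hZ2 : ∀ k : ℕ, (fun k : ℕ => (k : ℝ) + 1) k ≠ 0 := fun k => by
    show (k : ℝ) + 1 ≠ 0
    positivity
  have hZ3 : (fun k : ℕ => (k : ℝ) + 1) 0 = 1 := by simp
  have hlin : ∀ (α : ℝ) (s : ℝ), (α * (s - 1)) * s =
      (Polynomial.C α * Polynomial.X ^ 2 - Polynomial.C α * Polynomial.X).eval s := by
    intro α s
    simp only [Polynomial.eval_sub, Polynomial.eval_mul, Polynomial.eval_C, Polynomial.eval_X,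
      Polynomial.eval_pow]
    ring
  have hlind : ∀ α : ℝ, HasDerivAt (fun s : ℝ => α * (s - 1)) α 1 := by
    intro α
    have := ((hasDerivAt_id (1 : ℝ)).sub_const 1).const_mul α
    simpa using this
  by_cases h4 : b * g = 4
  · -- parabolic case
    have h := path f x v u
      (fun s => (b * c / 2) * (s - 1) + (-(2 * a - b * c) / 2) * (s - 1) ^ 2)
      (fun s => (-(g * a) / 2) * (s - 1) + (-(2 * c - g * a) / 2) * (s - 1) ^ 2)
      (Polynomial.C (b * c / 2) * (Polynomial.X - 1) * Polynomial.X +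
        Polynomial.C (-(2 * a - b * c) / 2) * (Polynomial.X - 1) ^ 2 * Polynomial.X)
      (Polynomial.C (-(g * a) / 2) * (Polynomial.X - 1) * Polynomial.X +
        Polynomial.C (-(2 * c - g * a) / 2) * (Polynomial.X - 1) ^ 2 * Polynomial.X)
      (by
        intro s _
        simp only [Polynomial.eval_add, Polynomial.eval_sub, Polynomial.eval_mul,
          Polynomial.eval_C, Polynomial.eval_X, Polynomial.eval_pow, Polynomial.eval_one]
        ring)
      (by
        intro s _
        simp only [Polynomial.eval_add, Polynomial.eval_sub, Polynomial.eval_mul,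
          Polynomial.eval_C, Polynomial.eval_X, Polynomial.eval_pow, Polynomial.eval_one]
        ring)
      (b * c / 2) (-(g * a) / 2)
      (by
        have h1 := ((hasDerivAt_id (1 : ℝ)).sub_const 1).const_mul (b * c / 2)
        have h2 := (((hasDerivAt_id (1 : ℝ)).sub_const 1).pow 2).const_mul
          (-(2 * a - b * c) / 2)
        have h3 := h1.add h2
        simp only [id, sub_self, mul_one] at h3
        refine h3.congr_deriv ?_
        norm_num)
      (by
        have h1 := ((hasDerivAt_id (1 : ℝ)).sub_const 1).const_mul (-(g * a) / 2)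
        have h2 := (((hasDerivAt_id (1 : ℝ)).sub_const 1).pow 2).const_mul
          (-(2 * c - g * a) / 2)
        have h3 := h1.add h2
        simp only [id, sub_self, mul_one] at h3
        refine h3.congr_deriv ?_
        norm_num)
      (by ring) (by ring) (fun k : ℕ => (k : ℝ) + 1) hZ1 hZ2 hZ3
      (by
        intro k
        refine hτ _ _ _ _ ?_ ?_
        · push_cast
          linear_combination ((k : ℝ) * c / 2 + (k : ℝ) ^ 2 * c / 2) * h4
        · push_cast
          linear_combination ((k : ℝ) * a / 2 + (k : ℝ) ^ 2 * a / 2) * h4)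
    linear_combination 2 * h
  rcases hcase with hc | hc | hc | hc
  · exact hyperbolic f x v u a b c g hτ (by nlinarith)
  · have hc' : 4 < b * g := lt_of_le_of_ne hc (Ne.symm h4)
    exact hyperbolic f x v u a b c g hτ (by nlinarith)
  · obtain ⟨hb, hg⟩ := hc
    have h := path f x v u (fun _ => 0) (fun s => (g * a) * (s - 1)) 0
      (Polynomial.C (g * a) * Polynomial.X ^ 2 - Polynomial.C (g * a) * Polynomial.X)
      (by intro s _; simp) (fun s _ => hlin _ _) 0 (g * a) (hasDerivAt_const _ _) (hlind _)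
      rfl (by ring) (fun k : ℕ => (k : ℝ) + 1) hZ1 hZ2 hZ3
      (by
        intro k
        have e1 := hτ 0 ((g * a) * (((k : ℝ) + 1) - 1)) _ _ rfl rfl
        have e2 := hτ (-0 - a - b * (-((g * a) * (((k : ℝ) + 1) - 1)) - c - g * 0))
          (-((g * a) * (((k : ℝ) + 1) - 1)) - c - g * 0)
          0 ((g * a) * ((((k + 1 : ℕ) : ℝ) + 1) - 1))
          (by rw [hb]; push_cast; ring) (by rw [hb]; ring)
        exact e2.trans e1)
    rw [hb]
    linear_combination -h
  · obtain ⟨hb, hg⟩ := hc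
    have h := path f x v u (fun s => (-(b * c)) * (s - 1)) (fun _ => 0)
      (Polynomial.C (-(b * c)) * Polynomial.X ^ 2 - Polynomial.C (-(b * c)) * Polynomial.X) 0
      (fun s _ => hlin _ _) (by intro s _; simp) (-(b * c)) 0 (hlind _) (hasDerivAt_const _ _)
      (by ring) rfl (fun k : ℕ => (k : ℝ) + 1) hZ1 hZ2 hZ3
      (by
        intro k
        have e1 := hτ ((-(b * c)) * (((k : ℝ) + 1) - 1)) 0 _ _ rfl rfl
        have e2 := hτ (-((-(b * c)) * (((k : ℝ) + 1) - 1)) - a -
            b * (-0 - c - g * ((-(b * c)) * (((k : ℝ) + 1) - 1))))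
          (-0 - c - g * ((-(b * c)) * (((k : ℝ) + 1) - 1)))
          ((-(b * c)) * ((((k + 1 : ℕ) : ℝ) + 1) - 1)) 0
          (by rw [hg]; ring) (by rw [hg]; push_cast; ring)
        exact e2.trans e1)
    rw [hg]
    linear_combination -h

open Pool.Agent.Y461.KM in
/-- Invariance at real points. -/
theorem inv_real (β v : σ → ℚ) (f : MvPolynomial σ ℚ) (h : rr β v f = f) (y : σ → ℝ) :
    (aeval (fun i => y i - (v i : ℝ) * ∑ j, (β j : ℝ) * y j) f : ℝ) = aeval y f := by
  conv_rhs => rw [← h]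
  rw [rr, comp_aeval_apply]
  congr 2
  funext i
  simp

omit [Fintype σ] in
theorem eval_real (f : MvPolynomial σ ℚ) (x : σ → ℚ) :
    (aeval (fun i => (x i : ℝ)) f : ℝ) = ((eval x f : ℚ) : ℝ) := by
  have h := aeval_algebraMap_apply (R := ℚ) (A := ℚ) (B := ℝ) x f
  rw [aeval_eq_eval] at h
  exact h

theorem lin_ne_zero (β v : σ → ℚ) (h : ∑ x, β x * v x = 2) :
    (∑ x, C (β x) * X x : MvPolynomial σ ℚ) ≠ 0 := by
  intro h0
  have h1 : eval v (∑ x, C (β x) * X x : MvPolynomial σ ℚ) = 2 := by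
    simp only [map_sum, map_mul, eval_C, eval_X]
    exact h
  rw [h0, map_zero] at h1
  norm_num at h1

/-- HYP. -/
theorem hyp : Pool.Agent.Y461.KM.S_HYP := by
  intro σ _ β v γ u f h k hβ hγ hf1 hf2 hh hk hcase
  set b := ∑ x, β x * u x with hb
  set g := ∑ x, γ x * v x with hg
  have key : ∀ x : σ → ℚ, (∑ i, β i * x i) * (∑ i, γ i * x i) *
      (b * eval x h - g * eval x k) = 0 := by
    intro x
    have hDv : ∑ i, (v i : ℝ) * (aeval (fun i => (x i : ℝ)) (pderiv i f) : ℝ) =
        ((∑ i, β i * x i : ℚ) : ℝ) * ((eval x h : ℚ) : ℝ) := by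
      have := congrArg (fun p => (aeval (fun i => (x i : ℝ)) p : ℝ)) hh
      simp only [map_sum, map_mul, algHom_C, aeval_X, eval_real] at this
      simp only [eval_real]
      push_cast
      simpa using this
    have hDu : ∑ i, (u i : ℝ) * (aeval (fun i => (x i : ℝ)) (pderiv i f) : ℝ) =
        ((∑ i, γ i * x i : ℚ) : ℝ) * ((eval x k : ℚ) : ℝ) := by
      have := congrArg (fun p => (aeval (fun i => (x i : ℝ)) p : ℝ)) hk
      simp only [map_sum, map_mul, algHom_C, aeval_X, eval_real] at this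
      simp only [eval_real]
      push_cast
      simpa using this
    have hβ' : ∑ i, (β i : ℝ) * (v i : ℝ) = 2 := by exact_mod_cast hβ
    have hγ' : ∑ i, (γ i : ℝ) * (u i : ℝ) = 2 := by exact_mod_cast hγ
    have hb' : ∑ i, (β i : ℝ) * (u i : ℝ) = (b : ℝ) := by rw [hb]; push_cast; rfl
    have hg' : ∑ i, (γ i : ℝ) * (v i : ℝ) = (g : ℝ) := by rw [hg]; push_cast; rfl
    have hlinβ : ∀ p q : ℝ, ∑ i, (β i : ℝ) * ((x i : ℝ) + p * (v i : ℝ) + q * (u i : ℝ)) =
        ((∑ i, β i * x i : ℚ) : ℝ) + 2 * p + (b : ℝ) * q := by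
      intro p q
      rw [← hβ', ← hb']
      push_cast
      rw [Finset.sum_mul, Finset.sum_mul, ← Finset.sum_add_distrib, ← Finset.sum_add_distrib]
      refine Finset.sum_congr rfl fun i _ => ?_
      ring
    have hlinγ : ∀ p q : ℝ, ∑ i, (γ i : ℝ) * ((x i : ℝ) + p * (v i : ℝ) + q * (u i : ℝ)) =
        ((∑ i, γ i * x i : ℚ) : ℝ) + (g : ℝ) * p + 2 * q := by
      intro p q
      rw [← hγ', ← hg']
      push_cast
      rw [Finset.sum_mul, Finset.sum_mul, ← Finset.sum_add_distrib, ← Finset.sum_add_distrib]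
      refine Finset.sum_congr rfl fun i _ => ?_
      ring
    have hmain := core f (fun i => (x i : ℝ)) (fun i => (v i : ℝ)) (fun i => (u i : ℝ))
      ((∑ i, β i * x i : ℚ) : ℝ) (b : ℝ) ((∑ i, γ i * x i : ℚ) : ℝ) (g : ℝ)
      (by
        intro p q p1 q1 hq1 hp1
        have e1 := inv_real γ u f hf2 (fun i => (x i : ℝ) + p * (v i : ℝ) + q * (u i : ℝ))
        have e2 := inv_real β v f hf1 (fun i => (x i : ℝ) + p * (v i : ℝ) + q1 * (u i : ℝ))
        rw [hlinγ] at e1
        rw [hlinβ] at e2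
        have e3 : (fun i => (x i : ℝ) + p * (v i : ℝ) + q * (u i : ℝ) -
            (u i : ℝ) * (((∑ i, γ i * x i : ℚ) : ℝ) + (g : ℝ) * p + 2 * q)) =
            fun i => (x i : ℝ) + p * (v i : ℝ) + q1 * (u i : ℝ) := by
          funext i
          rw [hq1]
          ring
        have e4 : (fun i => (x i : ℝ) + p * (v i : ℝ) + q1 * (u i : ℝ) -
            (v i : ℝ) * (((∑ i, β i * x i : ℚ) : ℝ) + 2 * p + (b : ℝ) * q1)) =
            fun i => (x i : ℝ) + p1 * (v i : ℝ) + q1 * (u i : ℝ) := by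
          funext i
          rw [hp1]
          ring
        rw [e3] at e1
        rw [e4] at e2
        exact e2.trans e1)
      (by
        rcases hcase with hc | hc | ⟨h1, h2⟩ | ⟨h1, h2⟩
        · left
          exact_mod_cast hc
        · right; left
          exact_mod_cast hc
        · right; right; left
          exact ⟨by exact_mod_cast h1, by exact_mod_cast h2⟩
        · right; right; right
          exact ⟨by exact_mod_cast h1, by exact_mod_cast h2⟩)
    rw [hDv, hDu] at hmain
    have h5 : (((∑ i, β i * x i) * (∑ i, γ i * x i) *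
      (b * eval x h - g * eval x k) : ℚ) : ℝ) = 0 := by
      push_cast at hmain ⊢
      linear_combination hmain
    exact_mod_cast h5
  have hpoly : (∑ x, C (β x) * X x : MvPolynomial σ ℚ) * (∑ x, C (γ x) * X x) *
      (C b * h - C g * k) = 0 := by
    apply MvPolynomial.funext
    intro x
    simp only [map_mul, map_sub, map_sum, eval_C, eval_X, map_zero]
    exact key x
  have h6 := (mul_eq_zero.mp hpoly).resolve_left
    (mul_ne_zero (lin_ne_zero β v hβ) (lin_ne_zero γ u hγ))
  exact sub_eq_zero.mp h6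

end Pool.Agent.Y348.KM
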